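import Pool.Agent.H.MP_da28a5_co.A

set_option autoImplicit false

namespace Pool.Agent.Results.MP_da28a5_co.Yes

open Set
open scoped LinearAlgebra.Projectivization

def IsPGBasis {K V : Type} [Field K] [AddCommGroup V] [Module K V] (B : Set (ℙ K V)) : Prop :=
  LinearIndepOn K Projectivization.rep B ∧ Submodule.span K (Projectivization.rep '' B) = ⊤

def poly {α : Type} (p : Set α → Prop) : Set (α → ℝ) :=
  convexHull ℝ ((fun B : Set α => B.indicator (1 : α → ℝ)) '' {B | p B})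

theorem result (K : Type) [Field K] [Finite K] (r : ℕ) (hr : 3 ≤ r)
    (C : Set (Matroid (ℙ K (Fin r → K)))) (hC : C.Finite) (hE : ∀ N ∈ C, N.E = univ)
    (hv : ∀ N ∈ C, ∀ B, N.IsBase B → IsPGBasis B)
    (hc : ⋃ N ∈ C, poly N.IsBase = poly IsPGBasis) :
    ∃ N ∈ C, (∀ B, N.IsBase B ↔ IsPGBasis B) ∧ poly N.IsBase = poly IsPGBasis := by
  have : Finite (ℙ K (Fin r → K)) := Quotient.finite _
  have := Fintype.ofFinite (ℙ K (Fin r → K))
  have G : H.MP_da28a5_co.Geo (K := K) (Projectivization.rep : ℙ K (Fin r → K) → _) := by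
    refine ⟨Projectivization.rep_nonzero, fun w hw => ?_, fun x y ⟨c, _, h⟩ => ?_⟩
    · obtain ⟨a, ha⟩ := Projectivization.exists_smul_eq_mk_rep K w hw
      exact ⟨_, a, a.ne_zero, ha.symm⟩
    · rw [← x.mk_rep, ← y.mk_rep, Projectivization.mk_eq_mk_iff']
      exact ⟨c, h.symm⟩
  obtain ⟨N, hN, h⟩ := H.MP_da28a5_co.main G (by simpa using hr) C hC hE hv hc
  refine ⟨N, hN, h, ?_⟩
  rw [show N.IsBase = IsPGBasis from funext fun B => propext (h B)]

end Pool.Agent.Results.MP_da28a5_co.Yes
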